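import Mathlib

/-!
# The theory of the integers with a square-free predicate is not MS-measurable
-/

open FirstOrder FirstOrder.Language

namespace Pool.Agent.Results.MP_c6a6a6_lc.NotMSMeasurable

universe u

/-! ## The language and the structure -/

/-- Function symbols: `1`, `-`, `+`. -/
inductive Fn : ℕ → Type
  | one : Fn 0
  | neg : Fn 1
  | add : Fn 2

/-- Relation symbols: `P_m` for `m ≥ 1`, and `U_{p,l}` for `p` prime and `l ∈ ℤ`; all unary. -/
inductive Rl : ℕ → Type
  | P : ℕ+ → Rl 1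
  | U : Nat.Primes → ℤ → Rl 1

/-- The language `{+, -, 1, (P_m)_{m ≥ 1}, (U_{p,l})_{p prime, l ∈ ℤ}}`. -/
def Lang : FirstOrder.Language.{0, 0} := ⟨Fn, Rl⟩

/-- `P_m = {a : v_p(a) < 2 + v_p(m) for all primes p}`, with `v_p(0) = ∞`. -/
def PSet (m : ℕ) : Set ℤ :=
  {a | ∀ p : ℕ, p.Prime → emultiplicity (p : ℤ) a < 2 + emultiplicity (p : ℤ) (m : ℤ)}

/-- `U_{p,l} = {a : v_p(a) ≥ l}`.  As `v_p(a) ≥ 0`, for `l < 0` this is everything. -/
def USet (p : ℕ) (l : ℤ) : Set ℤ :=
  {a | (l.toNat : ℕ∞) ≤ emultiplicity (p : ℤ) a}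

/-- `ℤ` as a structure in the language. -/
instance structZ : Lang.Structure ℤ where
  funMap := fun {n} f =>
    match n, f with
    | _, Fn.one => fun _ => 1
    | _, Fn.neg => fun v => - v 0
    | _, Fn.add => fun v => v 0 + v 1
  RelMap := fun {n} r =>
    match n, r with
    | _, Rl.P m => fun v => v 0 ∈ PSet (m : ℕ)
    | _, Rl.U p l => fun v => v 0 ∈ USet (p : ℕ) l

/-- `T_Sqf`, the complete theory of `ℤ` in the language. -/
def TSqf : Lang.Theory := Lang.completeTheory ℤ

/-! ## MS-measurability -/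

section
variable (L : FirstOrder.Language.{0, 0}) (M : Type u) [L.Structure M]

/-- Definable with parameters. -/
def PDef {α : Type} (X : Set (α → M)) : Prop := (Set.univ : Set M).Definable L X

variable {L M}

/-- `f` restricts to a definable map on the definable set `X`: its graph is definable. -/
def DefMapOn {n m : ℕ} (X : Set (Fin n → M)) (f : (Fin n → M) → (Fin m → M)) : Prop :=
  PDef L M {z : Fin n ⊕ Fin m → M | (fun i => z (Sum.inl i)) ∈ X ∧
    (fun j => z (Sum.inr j)) = f (fun i => z (Sum.inl i))}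

variable (L M)

/-- `h` is an MS-measure on the structure `M` (conditions 1-3 of the problem). Only its values
on the parameter-definable sets `X ⊆ M^n` with `n ≥ 1` are used. -/
structure IsMSMeasure (h : ∀ n : ℕ, Set (Fin n → M) → ℕ × ℝ) : Prop where
  /-- the values lie in `(ℕ × ℝ_{>0}) ∪ {(0,0)}` -/
  values : ∀ (n : ℕ), 1 ≤ n → ∀ X : Set (Fin n → M), PDef L M X → h n X = (0, 0) ∨ 0 < (h n X).2
  /-- condition 1, first part -/
  finitely_many : ∀ (n k : ℕ), 1 ≤ n → ∀ φ : L.Formula (Fin n ⊕ Fin k),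
    (Set.range fun b : Fin k → M => h n {a | φ.Realize (Sum.elim a b)}).Finite
  /-- condition 1, second part -/
  definable_fibres : ∀ (n k : ℕ), 1 ≤ n → ∀ φ : L.Formula (Fin n ⊕ Fin k), ∀ v : ℕ × ℝ,
    (∅ : Set M).Definable L {b : Fin k → M | h n {a | φ.Realize (Sum.elim a b)} = v}
  /-- condition 2 -/
  finite_sets : ∀ (n : ℕ), 1 ≤ n → ∀ X : Set (Fin n → M), X.Finite → h n X = (0, (X.ncard : ℝ))
  /-- condition 3, Fubini -/
  fubini : ∀ (n m : ℕ), 1 ≤ n → 1 ≤ m → ∀ (X : Set (Fin n → M)) (Y : Set (Fin m → M))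
    (f : (Fin n → M) → (Fin m → M)), PDef L M X → PDef L M Y → DefMapOn (L := L) X f →
    f '' X = Y →
    ∃ (r : ℕ) (P : Fin r → Set (Fin m → M)) (d : Fin r → ℕ) (μ : Fin r → ℝ),
      (∀ i, PDef L M (P i)) ∧ (∀ i, (P i).Nonempty) ∧
      (∀ i j, i ≠ j → Disjoint (P i) (P j)) ∧ (⋃ i, P i) = Y ∧
      (∀ i, ∀ y ∈ P i, h n {x ∈ X | f x = y} = (d i, μ i)) ∧
      h n X = (Finset.univ.sup (fun i => d i + (h m (P i)).1),
        ∑ i with d i + (h m (P i)).1 = Finset.univ.sup (fun i => d i + (h m (P i)).1),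
          μ i * (h m (P i)).2)

/-- The structure `M` is MS-measurable. -/
def MSMeasurable : Prop := ∃ h : ∀ n : ℕ, Set (Fin n → M) → ℕ × ℝ, IsMSMeasure L M h

/-! ## Consequences of the Fubini condition -/

variable {L M}

theorem additivity {h : ∀ n : ℕ, Set (Fin n → M) → ℕ × ℝ} (hh : IsMSMeasure L M h)
    [Infinite M] {n : ℕ} (hn : 1 ≤ n) {r : ℕ} (P : Fin r → Set (Fin n → M))
    (hdef : ∀ i, PDef L M (P i)) (hne : ∀ i, (P i).Nonempty)
    (hdis : ∀ i j, i ≠ j → Disjoint (P i) (P j)) :
    h n (⋃ i, P i) = (Finset.univ.sup (fun i => (h n (P i)).1),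
      ∑ i with (h n (P i)).1 = Finset.univ.sup (fun i => (h n (P i)).1), (h n (P i)).2) := by
  classical
  let c : ℕ ↪ M := Infinite.natEmbedding M
  let F : (Fin n → M) → (Fin 1 → M) := fun x _ =>
    if hx : ∃ i : Fin r, x ∈ P i then c (hx.choose : ℕ) else c 0
  have hF : ∀ i : Fin r, ∀ x ∈ P i, F x = fun _ => c (i : ℕ) := by
    intro i x hx
    have hex : ∃ i : Fin r, x ∈ P i := ⟨i, hx⟩
    have hch : hex.choose = i := by
      by_contra hne'
      exact (Set.disjoint_left.mp (hdis _ _ hne')) hex.choose_spec hx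
    funext _
    simp only [F]
    rw [dif_pos hex, hch]
  let pt : Fin r → (Fin 1 → M) := fun i _ => c (i : ℕ)
  have hpt : Function.Injective pt := by
    intro i j hij
    have := congrFun hij 0
    exact Fin.ext (c.injective this)
  have hYfin : (Set.range pt).Finite := Set.finite_range pt
  have hXdef : PDef L M (⋃ i, P i) := Set.definable_iUnion_of_finite hdef
  have hptdef : ∀ i, PDef L M ({pt i} : Set (Fin 1 → M)) := by
    intro i
    have h1 : (Set.univ : Set M).Definable L {v : Fin 1 → M | (fun v : Fin 1 → M => v 0) v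
        = c (i : ℕ)} := Set.DefinableFun.ofPred_eq_const (by fun_prop) (Set.mem_univ _)
    have : ({pt i} : Set (Fin 1 → M)) = {v : Fin 1 → M | (fun v : Fin 1 → M => v 0) v
        = c (i : ℕ)} := by
      ext v
      simp only [Set.mem_singleton_iff, Set.mem_ofPred_eq]
      constructor
      · rintro rfl; rfl
      · intro hv; funext j; rw [Subsingleton.elim j 0]; exact hv
    unfold PDef; rw [this]; exact h1
  have hYdef : PDef L M (Set.range pt) := by
    have : Set.range pt = ⋃ i, {pt i} := by ext v; simp [eq_comm]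
    rw [this]
    exact Set.definable_iUnion_of_finite hptdef
  have hgraph : DefMapOn (L := L) (⋃ i, P i) F := by
    have : {z : Fin n ⊕ Fin 1 → M | (fun i => z (Sum.inl i)) ∈ (⋃ i, P i) ∧
        (fun j => z (Sum.inr j)) = F (fun i => z (Sum.inl i))} =
        ⋃ i, ((fun z : Fin n ⊕ Fin 1 → M => z ∘ Sum.inl) ⁻¹' (P i)) ∩
          ((fun z : Fin n ⊕ Fin 1 → M => z ∘ Sum.inr) ⁻¹' {pt i}) := by
      ext z
      simp only [Set.mem_ofPred_eq, Set.mem_iUnion, Set.mem_inter_iff, Set.mem_preimage,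
        Set.mem_singleton_iff]
      constructor
      · rintro ⟨⟨i, hi⟩, h2⟩
        refine ⟨i, hi, ?_⟩
        rw [hF i _ hi] at h2
        exact h2
      · rintro ⟨i, hi, h2⟩
        refine ⟨⟨i, hi⟩, ?_⟩
        have := hF i _ hi
        exact h2.trans this.symm
    unfold DefMapOn PDef
    rw [this]
    refine Set.definable_iUnion_of_finite fun i => ?_
    exact Set.Definable.inter (Set.Definable.preimage_comp Sum.inl (hdef i))
      (Set.Definable.preimage_comp Sum.inr (hptdef i))
  have himage : F '' (⋃ i, P i) = Set.range pt := by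
    ext v
    constructor
    · rintro ⟨x, hx, rfl⟩
      obtain ⟨i, hi⟩ := Set.mem_iUnion.mp hx
      exact ⟨i, (hF i x hi).symm⟩
    · rintro ⟨i, rfl⟩
      obtain ⟨x, hx⟩ := hne i
      exact ⟨x, Set.mem_iUnion.mpr ⟨i, hx⟩, hF i x hx⟩
  obtain ⟨r', Q, d, μ, hQdef, hQne, hQdis, hQun, hQfib, hQX⟩ :=
    hh.fubini n 1 hn le_rfl _ _ F hXdef hYdef hgraph himage
  have hκ : ∀ i : Fin r, ∃ k, pt i ∈ Q k := by
    intro i
    have : pt i ∈ ⋃ k, Q k := by rw [hQun]; exact ⟨i, rfl⟩
    exact Set.mem_iUnion.mp this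
  choose κ hκ using hκ
  have hκuniq : ∀ i k, pt i ∈ Q k → κ i = k := by
    intro i k hk
    by_contra hne'
    exact (Set.disjoint_left.mp (hQdis _ _ hne')) (hκ i) hk
  have hfib : ∀ i, {x ∈ ⋃ i, P i | F x = pt i} = P i := by
    intro i
    ext x
    constructor
    · rintro ⟨hx, hx2⟩
      obtain ⟨j, hj⟩ := Set.mem_iUnion.mp hx
      rw [hF j x hj] at hx2
      have : j = i := hpt hx2
      exact this ▸ hj
    · intro hx
      exact ⟨Set.mem_iUnion.mpr ⟨i, hx⟩, hF i x hx⟩
  have hPi : ∀ i, h n (P i) = (d (κ i), μ (κ i)) := by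
    intro i
    have := hQfib (κ i) (pt i) (hκ i)
    rwa [hfib i] at this
  have hQk : ∀ k, Q k = pt '' {i | κ i = k} := by
    intro k
    ext v
    constructor
    · intro hv
      have : v ∈ Set.range pt := by rw [← hQun]; exact Set.mem_iUnion.mpr ⟨k, hv⟩
      obtain ⟨i, rfl⟩ := this
      exact ⟨i, hκuniq i k hv, rfl⟩
    · rintro ⟨i, hi, rfl⟩
      have := hκ i
      rw [Set.mem_ofPred_eq] at hi
      rwa [hi] at this
  have hQh : ∀ k, h 1 (Q k) = (0, ((Finset.univ.filter fun i => κ i = k).card : ℝ)) := by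
    intro k
    have hfin : (Q k).Finite := by
      rw [hQk k]; exact Set.toFinite _
    rw [hh.finite_sets 1 le_rfl (Q k) hfin]
    congr 2
    rw [hQk k, Set.ncard_image_of_injective _ hpt]
    rw [← Set.ncard_coe_finset]
    congr 1
    ext i; simp
  have hκsurj : Function.Surjective κ := by
    intro k
    obtain ⟨v, hv⟩ := hQne k
    rw [hQk k] at hv
    obtain ⟨i, hi, _⟩ := hv
    exact ⟨i, hi⟩
  have hsup : Finset.univ.sup (fun i => (h n (P i)).1) = Finset.univ.sup d := by
    apply le_antisymm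
    · apply Finset.sup_le
      intro i _
      rw [hPi i]
      exact Finset.le_sup (f := d) (Finset.mem_univ (κ i))
    · apply Finset.sup_le
      intro k _
      obtain ⟨i, rfl⟩ := hκsurj k
      have : d (κ i) = (h n (P i)).1 := by rw [hPi i]
      rw [this]
      exact Finset.le_sup (f := fun i => (h n (P i)).1) (Finset.mem_univ i)
  rw [hQX]
  simp only [hQh, add_zero]
  rw [hsup]
  congr 1
  simp only [hPi]
  rw [Finset.sum_filter, Finset.sum_filter,
    ← Finset.sum_fiberwise (s := Finset.univ) (g := κ)]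
  refine Finset.sum_congr rfl fun k _ => ?_
  have : ∑ i with κ i = k, (if d (κ i) = Finset.univ.sup d then μ (κ i) else 0) =
      ∑ i with κ i = k, (if d k = Finset.univ.sup d then μ k else 0) := by
    refine Finset.sum_congr rfl fun i hi => ?_
    rw [(Finset.mem_filter.mp hi).2]
  rw [this, Finset.sum_const, nsmul_eq_mul]
  split_ifs <;> ring

theorem bijection {h : ∀ n : ℕ, Set (Fin n → M) → ℕ × ℝ} (hh : IsMSMeasure L M h)
    [Infinite M] {n m : ℕ} (hn : 1 ≤ n) (hm : 1 ≤ m) {X : Set (Fin n → M)}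
    {Y : Set (Fin m → M)} (f : (Fin n → M) → (Fin m → M)) (hX : PDef L M X)
    (hY : PDef L M Y) (hf : DefMapOn (L := L) X f) (him : f '' X = Y) (hinj : Set.InjOn f X) :
    h n X = h m Y := by
  obtain ⟨r, P, d, μ, hPdef, hPne, hPdis, hPun, hPfib, hPX⟩ :=
    hh.fubini n m hn hm X Y f hX hY hf him
  have hdμ : ∀ i, (d i, μ i) = ((0 : ℕ), (1 : ℝ)) := by
    intro i
    obtain ⟨y, hy⟩ := hPne i
    rw [← hPfib i y hy]
    have hyY : y ∈ Y := by rw [← hPun]; exact Set.mem_iUnion.mpr ⟨i, hy⟩
    rw [← him] at hyY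
    obtain ⟨x, hx, rfl⟩ := hyY
    have : {x' ∈ X | f x' = f x} = {x} := by
      ext x'
      constructor
      · rintro ⟨h1, h2⟩; exact hinj h1 hx h2
      · rintro rfl; exact ⟨hx, rfl⟩
    rw [this, hh.finite_sets n hn _ (Set.finite_singleton x)]
    simp
  have hd : ∀ i, d i = 0 := fun i => (Prod.ext_iff.mp (hdμ i)).1
  have hμ : ∀ i, μ i = 1 := fun i => (Prod.ext_iff.mp (hdμ i)).2
  rw [hPX, ← hPun, additivity hh hm P hPdef hPne hPdis]
  simp only [hd, hμ, zero_add, one_mul]

end

/-! ## Models of `T_Sqf` -/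

section Model

variable {M : Type u} [Lang.Structure M]

/-- Addition in a structure for the language. -/
def ad (x y : M) : M := Structure.funMap (L := Lang) (M := M) Fn.add ![x, y]

/-- The constant `1` in a structure for the language. -/
def on (M : Type u) [Lang.Structure M] : M := Structure.funMap (L := Lang) (M := M) Fn.one ![]

/-- The term `s + t`. -/
def addT {α : Type} (s t : Lang.Term α) : Lang.Term α := Term.func (L := Lang) Fn.add ![s, t]

/-- The term `1`. -/
def oneT {α : Type} : Lang.Term α := Term.func (L := Lang) Fn.one ![]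

@[simp] theorem realize_addT {α : Type} (s t : Lang.Term α) (v : α → M) :
    (addT s t).realize v = ad (s.realize v) (t.realize v) := by
  simp only [addT, Term.realize, ad]
  congr 1
  funext i
  fin_cases i <;> rfl

@[simp] theorem realize_oneT {α : Type} (v : α → M) :
    (oneT : Lang.Term α).realize v = on M := by
  simp only [oneT, Term.realize, on]
  congr 1
  funext i
  exact i.elim0

theorem ad_int (x y : ℤ) : ad x y = x + y := rfl

theorem on_int : on ℤ = 1 := rfl

/-- `∀ x y, x + x = y + y → x = y` -/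
def s1 : Lang.Sentence :=
  ∀' ∀' ((Term.bdEqual (addT (&0) (&0)) (addT (&1) (&1))) ⟹ (Term.bdEqual (&0) (&1)))

/-- `∀ x y, (x + x) + 1 = (y + y) + 1 → x = y` -/
def s2 : Lang.Sentence :=
  ∀' ∀' ((Term.bdEqual (addT (addT (&0) (&0)) oneT) (addT (addT (&1) (&1)) oneT)) ⟹
    (Term.bdEqual (&0) (&1)))

/-- `∀ x y, ¬ x + x = (y + y) + 1` -/
def s3 : Lang.Sentence :=
  ∀' ∀' ∼ (Term.bdEqual (addT (&0) (&0)) (addT (addT (&1) (&1)) oneT))

/-- `∀ x, ∃ y, x = y + y ∨ x = (y + y) + 1` -/
def s4 : Lang.Sentence :=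
  ∀' ∃' ((Term.bdEqual (&0) (addT (&1) (&1))) ⊔
    (Term.bdEqual (&0) (addT (addT (&1) (&1)) oneT)))

theorem realize_s1 : M ⊨ s1 ↔ ∀ x y : M, ad x x = ad y y → x = y := by
  simp [s1, Sentence.Realize, Formula.Realize, Fin.snoc]

theorem realize_s2 : M ⊨ s2 ↔
    ∀ x y : M, ad (ad x x) (on M) = ad (ad y y) (on M) → x = y := by
  simp [s2, Sentence.Realize, Formula.Realize, Fin.snoc]

theorem realize_s3 : M ⊨ s3 ↔ ∀ x y : M, ¬ ad x x = ad (ad y y) (on M) := by
  simp [s3, Sentence.Realize, Formula.Realize, Fin.snoc]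

theorem realize_s4 : M ⊨ s4 ↔ ∀ x : M, ∃ y : M, x = ad y y ∨ x = ad (ad y y) (on M) := by
  simp [s4, Sentence.Realize, Formula.Realize, Fin.snoc]

theorem elemEquiv (hM : M ⊨ TSqf) : Lang.ElementarilyEquivalent ℤ M := by
  rw [elementarilyEquivalent_iff]
  intro φ
  constructor
  · intro h
    exact hM.realize_of_mem φ ((mem_completeTheory).mpr h)
  · intro h
    by_contra h2
    have h3 : ℤ ⊨ (Formula.not φ) := (Sentence.realize_not (M := ℤ)).mpr h2
    have h4 : M ⊨ (Formula.not φ) := hM.realize_of_mem _ ((mem_completeTheory).mpr h3)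
    exact (Sentence.realize_not (M := M)).mp h4 h

theorem transfer (hM : M ⊨ TSqf) {φ : Lang.Sentence} (h : ℤ ⊨ φ) : M ⊨ φ :=
  hM.realize_of_mem φ ((mem_completeTheory).mpr h)

theorem facts (hM : M ⊨ TSqf) :
    (∀ x y : M, ad x x = ad y y → x = y) ∧
    (∀ x y : M, ad (ad x x) (on M) = ad (ad y y) (on M) → x = y) ∧
    (∀ x y : M, ¬ ad x x = ad (ad y y) (on M)) ∧
    (∀ x : M, ∃ y : M, x = ad y y ∨ x = ad (ad y y) (on M)) := by
  refine ⟨realize_s1.mp (transfer hM (realize_s1.mpr ?_)),
    realize_s2.mp (transfer hM (realize_s2.mpr ?_)),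
    realize_s3.mp (transfer hM (realize_s3.mpr ?_)),
    realize_s4.mp (transfer hM (realize_s4.mpr ?_))⟩
  · intro x y h; simp only [ad_int] at h; omega
  · intro x y h; simp only [ad_int, on_int] at h; omega
  · intro x y h; simp only [ad_int, on_int] at h; omega
  · intro x
    refine ⟨x / 2, ?_⟩
    simp only [ad_int, on_int]
    omega

theorem defMap_of_term (t : Lang.Term (Fin 1)) :
    DefMapOn (L := Lang) (M := M) (Set.univ : Set (Fin 1 → M))
      (fun v (_ : Fin 1) => t.realize v) := by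
  have h1 : (Set.univ : Set M).Definable Lang {z : Fin 1 ⊕ Fin 1 → M |
      (fun z : Fin 1 ⊕ Fin 1 → M => z (Sum.inr 0)) z =
        ((t.relabel Sum.inl : Lang.Term (Fin 1 ⊕ Fin 1))).realize z} := by
    refine Set.DefinableFun.ofPred_eq (by fun_prop) ?_
    exact Set.DefinableFun.of_empty (Term.definableFun_realize _)
  unfold DefMapOn PDef
  convert h1 using 1
  ext z
  simp only [Set.mem_univ, true_and, Set.mem_ofPred_eq, Term.realize_relabel]
  constructor
  · intro h; exact congrFun h 0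
  · intro h; funext j; rw [Subsingleton.elim j 0]; exact h

theorem range_of_term (t : Lang.Term (Fin 1)) :
    PDef Lang M (Set.range (fun (v : Fin 1 → M) (_ : Fin 1) => t.realize v)) := by
  have h1 : (Set.univ : Set M).Definable Lang {z : Fin 1 ⊕ Fin 1 → M |
      (fun z : Fin 1 ⊕ Fin 1 → M => z (Sum.inl 0)) z =
        ((t.relabel Sum.inr : Lang.Term (Fin 1 ⊕ Fin 1))).realize z} := by
    refine Set.DefinableFun.ofPred_eq (by fun_prop) ?_
    exact Set.DefinableFun.of_empty (Term.definableFun_realize _)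
  have h2 := Set.Definable.exists_of_finite h1
  unfold PDef
  convert h2 using 1
  ext u
  simp only [Set.mem_range, Set.mem_ofPred_eq, Term.realize_relabel, Sum.elim_inl]
  constructor
  · rintro ⟨v, rfl⟩
    exact ⟨v, rfl⟩
  · rintro ⟨v, hv⟩
    refine ⟨v, ?_⟩
    funext j
    rw [Subsingleton.elim j 0, hv]
    rfl

theorem not_msMeasurable (hM : M ⊨ TSqf) : ¬ MSMeasurable Lang M := by
  rintro ⟨h, hh⟩
  have : Infinite M := (elemEquiv hM).infinite
  obtain ⟨f1, f2, f3, f4⟩ := facts hM
  let ta : Lang.Term (Fin 1) := addT (Term.var 0) (Term.var 0)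
  let tb : Lang.Term (Fin 1) := addT (addT (Term.var 0) (Term.var 0)) oneT
  let a : (Fin 1 → M) → (Fin 1 → M) := fun v _ => ta.realize v
  let b : (Fin 1 → M) → (Fin 1 → M) := fun v _ => tb.realize v
  have ha : ∀ v, a v = fun _ => ad (v 0) (v 0) := by
    intro v; funext j; simp [a, ta]
  have hb : ∀ v, b v = fun _ => ad (ad (v 0) (v 0)) (on M) := by
    intro v; funext j; simp [b, tb]
  have hUdef : PDef Lang M (Set.univ : Set (Fin 1 → M)) := Set.definable_univ
  have hAdef : PDef Lang M (Set.range a) := range_of_term ta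
  have hBdef : PDef Lang M (Set.range b) := range_of_term tb
  have ext1 : ∀ v w : Fin 1 → M, v 0 = w 0 → v = w := by
    intro v w h; funext j; rw [Subsingleton.elim j 0]; exact h
  have hainj : Function.Injective a := by
    intro v w hvw
    rw [ha, ha] at hvw
    exact ext1 _ _ (f1 _ _ (congrFun hvw 0))
  have hbinj : Function.Injective b := by
    intro v w hvw
    rw [hb, hb] at hvw
    exact ext1 _ _ (f2 _ _ (congrFun hvw 0))
  have hA : h 1 Set.univ = h 1 (Set.range a) :=
    bijection hh le_rfl le_rfl a hUdef hAdef (defMap_of_term ta) Set.image_univ hainj.injOn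
  have hB : h 1 Set.univ = h 1 (Set.range b) :=
    bijection hh le_rfl le_rfl b hUdef hBdef (defMap_of_term tb) Set.image_univ hbinj.injOn
  have hdisj : Disjoint (Set.range a) (Set.range b) := by
    rw [Set.disjoint_left]
    rintro _ ⟨v, rfl⟩ ⟨w, hw⟩
    rw [ha, hb] at hw
    exact f3 _ _ (congrFun hw 0).symm
  have hun : Set.range a ∪ Set.range b = Set.univ := by
    rw [Set.eq_univ_iff_forall]
    intro v
    obtain ⟨y, hy⟩ := f4 (v 0)
    rcases hy with hy | hy
    · left
      refine ⟨fun _ => y, ?_⟩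
      rw [ha]; exact ext1 _ _ hy.symm
    · right
      refine ⟨fun _ => y, ?_⟩
      rw [hb]; exact ext1 _ _ hy.symm
  have v0 : Fin 1 → M := fun _ => on M
  -- the measure of the whole line is `(d, 2 μ)`
  have hsum := additivity hh (n := 1) le_rfl (r := 2) ![Set.range a, Set.range b]
    (by intro i; fin_cases i; exacts [hAdef, hBdef])
    (by intro i; fin_cases i; exacts [⟨_, v0, rfl⟩, ⟨_, v0, rfl⟩])
    (by
      intro i j hij
      fin_cases i <;> fin_cases j
      · exact absurd rfl hij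
      · exact hdisj
      · exact hdisj.symm
      · exact absurd rfl hij)
  have hU2 : (⋃ i, (![Set.range a, Set.range b] : Fin 2 → Set (Fin 1 → M)) i) = Set.univ := by
    rw [← hun]; ext v; simp [Fin.exists_fin_two]
  rw [hU2] at hsum
  have hvals : ∀ i, h 1 ((![Set.range a, Set.range b] : Fin 2 → Set (Fin 1 → M)) i) =
      h 1 Set.univ := by
    intro i; fin_cases i; exacts [hA.symm, hB.symm]
  simp only [hvals] at hsum
  have hμ : (h 1 (Set.univ : Set (Fin 1 → M))).2 = 0 := by
    have h2 := congrArg Prod.snd hsum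
    have h3 : (Finset.univ.sup fun _ : Fin 2 => (h 1 (Set.univ : Set (Fin 1 → M))).1) =
        (h 1 (Set.univ : Set (Fin 1 → M))).1 :=
      Finset.sup_const Finset.univ_nonempty _
    rw [h3] at h2
    simp only [Finset.filter_true, Finset.sum_const, Finset.card_univ, Fintype.card_fin,
      nsmul_eq_mul] at h2
    push_cast at h2
    linarith
  -- but it is positive, since the line splits into a point and the rest
  have hpos : h 1 (Set.univ : Set (Fin 1 → M)) ≠ (0, 0) := by
    intro h0
    have hsing : PDef Lang M ({v0} : Set (Fin 1 → M)) := by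
      have h1 : (Set.univ : Set M).Definable Lang {v : Fin 1 → M | (fun v : Fin 1 → M => v 0) v
          = v0 0} := Set.DefinableFun.ofPred_eq_const (by fun_prop) (Set.mem_univ _)
      unfold PDef
      convert h1 using 1
      ext v
      simp only [Set.mem_singleton_iff, Set.mem_ofPred_eq]
      exact ⟨fun h => by rw [h], fun h => ext1 _ _ h⟩
    have hcomp : PDef Lang M ({v0}ᶜ : Set (Fin 1 → M)) := Set.Definable.compl hsing
    have hcne : ({v0}ᶜ : Set (Fin 1 → M)).Nonempty := by
      obtain ⟨y, hy⟩ := exists_ne (v0 0)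
      exact ⟨fun _ => y, fun h => hy (congrFun h 0)⟩
    have hsum2 := additivity hh (n := 1) le_rfl (r := 2) ![{v0}, {v0}ᶜ]
      (by intro i; fin_cases i; exacts [hsing, hcomp])
      (by intro i; fin_cases i; exacts [⟨v0, rfl⟩, hcne])
      (by
        intro i j hij
        fin_cases i <;> fin_cases j
        · exact absurd rfl hij
        · exact (disjoint_compl_right : Disjoint ({v0} : Set (Fin 1 → M)) {v0}ᶜ)
        · exact (disjoint_compl_left : Disjoint ({v0}ᶜ : Set (Fin 1 → M)) {v0})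
        · exact absurd rfl hij)
    have hU3 : (⋃ i, (![{v0}, {v0}ᶜ] : Fin 2 → Set (Fin 1 → M)) i) = Set.univ := by
      ext v; simp [Fin.exists_fin_two, em]
    rw [hU3, h0] at hsum2
    have hpt : h 1 ({v0} : Set (Fin 1 → M)) = (0, 1) := by
      rw [hh.finite_sets 1 le_rfl _ (Set.finite_singleton v0)]; simp
    have h1 := congrArg Prod.fst hsum2
    have h2 := congrArg Prod.snd hsum2
    simp only at h1 h2
    rw [← h1] at h2
    have h3 : (h 1 ({v0}ᶜ : Set (Fin 1 → M))).1 = 0 := by
      have : (h 1 ({v0}ᶜ : Set (Fin 1 → M))).1 ≤ Finset.univ.sup (fun i =>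
          (h 1 ((![{v0}, {v0}ᶜ] : Fin 2 → Set (Fin 1 → M)) i)).1) :=
        Finset.le_sup (f := fun i => (h 1 ((![{v0}, {v0}ᶜ] : Fin 2 → Set (Fin 1 → M)) i)).1)
          (Finset.mem_univ 1)
      rw [← h1] at this
      omega
    rw [Finset.sum_filter, Fin.sum_univ_two] at h2
    simp only [Matrix.cons_val_zero, Matrix.cons_val_one, hpt, h3, if_true] at h2
    rcases hh.values 1 le_rfl _ hcomp with h4 | h4
    · rw [h4] at h2; norm_num at h2
    · linarith
  rcases hh.values 1 le_rfl _ hUdef with h4 | h4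
  · exact hpos h4
  · linarith

end Model

/-- **Full (negative) answer to Q1 of MP_c6a6a6_lc.**  No model of `T_Sqf` (in any universe)
is MS-measurable, i.e. `T_Sqf` is not MS-measurable. -/
theorem result (M : Type u) [Lang.Structure M] (hM : M ⊨ TSqf) : ¬ MSMeasurable Lang M :=
  not_msMeasurable hM

end Pool.Agent.Results.MP_c6a6a6_lc.NotMSMeasurable
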